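import Pool.Agent.L7h38.BQ.Main
import Pool.Agent.L7h38.BQ.Pub

/-!
# The graded character of the batch quotient ring for constant batches (answer to Q2)

Let `α = (d, …, d)`, `n = r d`, `d ≤ k`. If `k ≤ n` then the trace of an element `g` of the wreath product
`𝔖_d ≀ 𝔖_r`, which permutes the batches by `τ`, on the graded ring `S_{α,k}` is

`∏_{c ∈ cyc g} (1 - q^c)⁻¹ ∑_s (-1)^|s| q^(∑ s) ∏_{k-|s|-d < a ≤ k-|s|} ∏_{c ∈ cyc τ} (1 - q^(a c))`,

where `s` runs through the subsets of `{n-k+1, …, n}` with `|s| ≤ k - d`. The sum over the `s` with `j`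
elements is `(-1)^j q^(j (n-k+1) + j (j-1)/2)` times a `q`-binomial coefficient `[k, j]`, so that

`S_{α,k} = ∑_j (-1)^j q^(j (n-k+1) + j (j-1)/2) [k, j] (A_{k-j})^{⊗ r}`, `A_j = ℚ[x_1, …, x_d] / (h_{j-d+1}, …, h_j)`

in the representation ring. For `k > n` the ring is zero.

Proof. Let `B k m` be the ring with the relations `e_{n-m+1}, …, e_n` and `h_{k-d+1}, …, h_k` in every batch.
The multiplication by `e_{n-m}` gives exact sequences
`0 → B (k-1) m (-(n-m)) → B k m → B k (m+1) → 0` of graded modules for the wreath product; the injectivity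
comes from an upper bound for the dimensions of all `B k m`, and `B k 0 = (A_k)^{⊗ r}` is a complete
intersection.
-/

set_option autoImplicit false

namespace Pool.Agent.Results.MP_9124ab_co.GradedCharacter

open Pool.Agent.L7h38.BQ.Pub

/-- The graded character of the `𝔖_d ≀ 𝔖_r`-module `S_{α,k}`. -/
theorem result (r d k : ℕ) (hr : 0 < r) (hd : 0 < d) (hdk : d ≤ k) :
    (∀ (g : Equiv.Perm (Fin r × Fin d)) (τ : Equiv.Perm (Fin r)), (∀ s, (g s).1 = τ s.1) →
      ∃ hs : Stable (ideal r d k) g, k ≤ r * d →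
        gradedTrace (ideal r d k) g hs * cycleProd g 1 = numerator r d k τ) ∧
    (r * d < k → ideal r d k = ⊤) := by
  refine ⟨?_, ?_⟩
  · intro g τ hg
    refine ⟨Pool.Agent.L7h38.BQ.JP_stab g τ hg k, ?_⟩
    intro hk
    exact Pool.Agent.L7h38.BQ.gtr_ring_cp hr hd g τ hg k hdk hk
  · intro hk
    exact Pool.Agent.L7h38.BQ.JP_top k hk

end Pool.Agent.Results.MP_9124ab_co.GradedCharacter
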