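import Pool.Agent.L7h38.BQ.Main
import Pool.Agent.L7h38.BQ.Pub
import Pool.Agent.L7h35.BQ.Orb
import Pool.Agent.L7h37.BQ.Avg

/-!
# The graded module structure of the invariants of the batch quotient ring (answer to Q1)

Let `α = (d, …, d)`, `n = r d`, `d ≤ k ≤ n`. The trace of the permutation `τ` of the batches on the
graded `𝔖_r`-module `(S_{α,k})^{𝔖_α}` is

`∏_{c ∈ cyc τ} ∏_{1 ≤ a ≤ d} (1 - q^(a c))⁻¹ ∑_s (-1)^|s| q^(∑ s) ∏_{k-|s|-d < a ≤ k-|s|} ∏_{c ∈ cyc τ} (1 - q^(a c))`,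

where `s` runs through the subsets of `{n-k+1, …, n}` with `|s| ≤ k - d`: in terms of `q`-binomial
coefficients

`∑_j (-1)^j q^(j (n-k+1) + j (j-1)/2) [k, j]_q ∏_{c ∈ cyc τ} [k - j, d]_{q^c}`,

that is `∑_j (-1)^j q^(j (n-k+1) + j (j-1)/2) [k, j]_q H^*(Gr(d, k-j))^{⊗ r}` in the representation ring.
For `k > n` the ring is zero (see `GradedCharacter`).
-/

set_option autoImplicit false

namespace Pool.Agent.Results.MP_9124ab_co.InvariantRing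

open Pool.Agent.L7h38.BQ.Pub

/-- The graded character of the `𝔖_r`-module `(S_{α,k})^{𝔖_α}`. -/
theorem result (r d k : ℕ) (hr : 0 < r) (hd : 0 < d) (hdk : d ≤ k) :
    ∃ hI : BatchStable (ideal r d k),
    (∀ (g : Equiv.Perm (Fin r × Fin d)) (τ : Equiv.Perm (Fin r)) (hg : ∀ s, (g s).1 = τ s.1),
      ∃ hs : Stable (ideal r d k) g, k ≤ r * d →
        gradedTraceInv (ideal r d k) hI g τ hg hs * ∏ a ∈ Finset.range d, cycleProd τ (a + 1) =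
          numerator r d k τ) ∧
    (r * d < k → ideal r d k = ⊤) := by
  refine ⟨fun u hu => Pool.Agent.L7h38.BQ.JP_stab u 1 (fun s => hu s) k, ?_, ?_⟩
  · intro g τ hg
    refine ⟨Pool.Agent.L7h38.BQ.JP_stab g τ hg k, ?_⟩
    intro hk
    exact Pool.Agent.L7h38.BQ.gtrInv_JP Pool.Agent.L7h38.BQ.t_UB Pool.Agent.L7h35.BQ.s_CC
      Pool.Agent.L7h38.BQ.t_SPZ Pool.Agent.L7h38.BQ.s_GEN Pool.Agent.L7h79.BQ.s_BAS
      Pool.Agent.L7h79.BQ.s_TREX Pool.Agent.L7h79.BQ.s_TR Pool.Agent.L7h37.BQ.s_FIXA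
      Pool.Agent.L7h37.BQ.s_FIXB Pool.Agent.L7h37.BQ.s_AVG Pool.Agent.L7h35.BQ.s_ORB hr hd g τ hg
      k hdk hk (fun u hu => Pool.Agent.L7h38.BQ.JP_stab u 1 (fun s => hu s) k)
  · intro hk
    exact Pool.Agent.L7h38.BQ.JP_top k hk

end Pool.Agent.Results.MP_9124ab_co.InvariantRing
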